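import Mathlib
import Pool.Agent.Q219.ZN.Min
import Pool.Agent.Run7.h508.BR.GT

/-!
# The group `B_n(Ω) ⊗ ℚ` of an algebraic closure and its Galois representation
-/

set_option autoImplicit false
set_option linter.unusedSectionVars false

namespace Pool.Agent.Run7.h508.ZW

open GonP NumberField Pool.Agent.Q219.ZG Pool.Agent.Q219.ZN Pool.Agent.Run7.h508.BR

section defs

/-- `ℤ[P^1_F] → ℚ[P^1_F]` -/
noncomputable def toQ {F : Type} : ZP F →+ (P1 F →₀ ℚ) :=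
  Finsupp.mapRange.addMonoidHom (Int.castAddHom ℚ)

variable (n : ℕ) (F : Type) [Field F]

/-- the subspace `R_n(F) ⊗ ℚ` of `ℚ[P^1_F]` -/
noncomputable def RQ : Submodule ℚ (P1 F →₀ ℚ) := Submodule.span ℚ (toQ '' (R n F : Set (ZP F)))

/-- the subspace `ker δ_n ⊗ ℚ` of `ℚ[P^1_F]` -/
noncomputable def KQ : Submodule ℚ (P1 F →₀ ℚ) := Submodule.span ℚ (toQ '' (Ker n F))

/-- `B_n(F) ⊗ ℚ` -/
abbrev BQ : Type := (P1 F →₀ ℚ) ⧸ RQ n F

/-- `H^1(Γ(F,n) ⊗ ℚ)`: the kernel of `δ_n` on `B_n(F) ⊗ ℚ` -/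
noncomputable def H1 : Submodule ℚ (BQ n F) := (KQ n F).map (RQ n F).mkQ

variable {F} in
/-- `L_n(σ(z))` for `z ∈ ℚ[P^1_F]` -/
noncomputable def valueQ (σ : F →+* ℂ) : (P1 F →₀ ℚ) →ₗ[ℚ] ℝ :=
  Finsupp.linearCombination ℚ (fun x => polylog n (mapP σ x))

/-- The kernel of the polylogarithmic regulator in `H^1(Γ(F,n) ⊗ ℚ)`: the classes of the elements `z`
of `ker δ_n ⊗ ℚ` with `L_n(σ(z)) = 0` for all embeddings `σ`. -/
noncomputable def regKer : Submodule ℚ (BQ n F) :=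
  (KQ n F ⊓ ⨅ σ : F →+* ℂ, LinearMap.ker (valueQ n σ)).map (RQ n F).mkQ

end defs

section act

lemma toQ_gen {F : Type} (x : P1 F) : toQ (gen x) = Finsupp.single x (1 : ℚ) := by
  change Finsupp.mapRange (Int.castAddHom ℚ) (map_zero _) (Finsupp.single x (1 : ℤ)) = _
  rw [Finsupp.mapRange_single]
  simp

/-- the map of a homomorphism -/
noncomputable def bmap {F L : Type} [Field F] [Field L] (f : F →+* L) :
    (P1 F →₀ ℚ) →ₗ[ℚ] (P1 L →₀ ℚ) := Finsupp.lmapDomain ℚ ℚ (mapP f)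

lemma bmap_toQ {F L : Type} [Field F] [Field L] (f : F →+* L) (α : ZP F) :
    bmap f (toQ α) = toQ (mapZ f α) := by
  have h : ((bmap f).toAddMonoidHom.comp toQ : ZP F →+ (P1 L →₀ ℚ)) = toQ.comp (mapZHom f) := by
    refine hom_ext fun x => ?_
    rw [AddMonoidHom.comp_apply, AddMonoidHom.comp_apply, mapZHom_apply, mapZ_gen, toQ_gen, toQ_gen]
    change Finsupp.mapDomain (mapP f) (Finsupp.single x (1 : ℚ)) = _
    rw [Finsupp.mapDomain_single]
  exact DFunLike.congr_fun h α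

lemma R_map {n : ℕ} (hn : 2 ≤ n) {F L : Type} [Field F] [Field L] (f : F →+* L) {α : ZP F}
    (hα : α ∈ R n F) : mapZ f α ∈ R n L := by
  have h1 : ¬ (n ≤ 1) := by omega
  unfold R at hα ⊢
  rw [if_neg h1] at hα ⊢
  exact RR_map _ f α hα

lemma RQ_map {n : ℕ} (hn : 2 ≤ n) {F L : Type} [Field F] [Field L] (f : F →+* L) :
    RQ n F ≤ (RQ n L).comap (bmap f) := by
  unfold RQ
  rw [Submodule.span_le]
  rintro _ ⟨α, hα, rfl⟩
  refine Submodule.subset_span ⟨mapZ f α, R_map hn f hα, ?_⟩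
  exact (bmap_toQ f α).symm

lemma KQ_map {n : ℕ} (hn : 3 ≤ n) {F L : Type} [Field F] [Field L] (f : F →+* L) :
    KQ n F ≤ (KQ n L).comap (bmap f) := by
  unfold KQ
  rw [Submodule.span_le]
  rintro _ ⟨α, hα, rfl⟩
  refine Submodule.subset_span ⟨mapZ f α, Ker_map hn f hα, ?_⟩
  exact (bmap_toQ f α).symm

lemma valueQ_bmap (n : ℕ) {F L : Type} [Field F] [Field L] (f : F →+* L) (σ : L →+* ℂ)
    (z : P1 F →₀ ℚ) : valueQ n σ (bmap f z) = valueQ n (σ.comp f) z := by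
  rw [valueQ, bmap, Finsupp.lmapDomain_apply, Finsupp.linearCombination_mapDomain, valueQ]
  congr 2
  funext x
  exact congrArg (polylog n) (mapP_comp f σ x)

end act

section rep

variable {k : Type} [Field k] (Ω : Type) [Field Ω] [Algebra k Ω] (n : ℕ)

lemma bmap_one (z : P1 Ω →₀ ℚ) : bmap ((1 : Ω ≃ₐ[k] Ω) : Ω →+* Ω) z = z := by
  have h : (mapP ((1 : Ω ≃ₐ[k] Ω) : Ω →+* Ω) : P1 Ω → P1 Ω) = id := by
    funext x
    cases x <;> rfl
  rw [bmap, Finsupp.lmapDomain_apply, h, Finsupp.mapDomain_id]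

lemma bmap_mul (σ τ : Ω ≃ₐ[k] Ω) (z : P1 Ω →₀ ℚ) :
    bmap ((σ * τ : Ω ≃ₐ[k] Ω) : Ω →+* Ω) z = bmap (σ : Ω →+* Ω) (bmap (τ : Ω →+* Ω) z) := by
  rw [bmap, bmap, bmap, Finsupp.lmapDomain_apply, Finsupp.lmapDomain_apply,
    Finsupp.lmapDomain_apply, ← Finsupp.mapDomain_comp]
  congr 1
  funext x
  cases x <;> rfl

/-- the representation of the automorphisms of `Ω` over `k` on `B_n(Ω) ⊗ ℚ` -/
noncomputable def bRep (hn : 2 ≤ n) : Representation ℚ (Ω ≃ₐ[k] Ω) (BQ n Ω) where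
  toFun := fun σ => Submodule.mapQ _ _ (bmap (σ : Ω →+* Ω)) (RQ_map hn _)
  map_one' := by
    refine LinearMap.ext fun c => ?_
    obtain ⟨z, rfl⟩ := Submodule.Quotient.mk_surjective _ c
    rw [Submodule.mapQ_apply, bmap_one]
    rfl
  map_mul' := fun σ τ => by
    refine LinearMap.ext fun c => ?_
    obtain ⟨z, rfl⟩ := Submodule.Quotient.mk_surjective _ c
    rw [Submodule.mapQ_apply, bmap_mul]
    rfl

lemma bRep_mk (hn : 2 ≤ n) (σ : Ω ≃ₐ[k] Ω) (z : P1 Ω →₀ ℚ) :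
    bRep Ω n hn σ (Submodule.Quotient.mk z) = Submodule.Quotient.mk (bmap (σ : Ω →+* Ω) z) := rfl

lemma H1_stable (hn : 3 ≤ n) (σ : Ω ≃ₐ[k] Ω) (v : BQ n Ω) (hv : v ∈ H1 n Ω) :
    bRep Ω n (by omega) σ v ∈ H1 n Ω := by
  obtain ⟨z, hz, rfl⟩ := hv
  exact ⟨bmap (σ : Ω →+* Ω) z, KQ_map hn _ hz, rfl⟩

lemma regKer_stable (hn : 3 ≤ n) (σ : Ω ≃ₐ[k] Ω) (v : BQ n Ω) (hv : v ∈ regKer n Ω) :
    bRep Ω n (by omega) σ v ∈ regKer n Ω := by
  obtain ⟨z, ⟨hz, hz'⟩, rfl⟩ := hv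
  refine ⟨bmap (σ : Ω →+* Ω) z, ⟨KQ_map hn _ hz, ?_⟩, rfl⟩
  rw [SetLike.mem_coe, Submodule.mem_iInf] at hz' ⊢
  intro τ
  rw [LinearMap.mem_ker, valueQ_bmap]
  exact hz' _

end rep

section disc

variable {k : Type} [Field k] [NumberField k] {Ω : Type} [Field Ω] [Algebra k Ω]
  [Algebra.IsAlgebraic k Ω] {n : ℕ}

/-- an element is defined over a number field -/
lemma exists_numberField (z : P1 Ω →₀ ℚ) : ∃ (K : Type) (_ : Field K) (_ : NumberField K)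
    (_ : Algebra k K) (j : K →ₐ[k] Ω), ∀ σ : Ω ≃ₐ[k] Ω, (∀ x : K, σ (j x) = j x) →
      bmap (σ : Ω →+* Ω) z = z := by
  classical
  let S : Finset Ω := z.support.biUnion fun P => P.toFinset
  let E := IntermediateField.adjoin k (S : Set Ω)
  have hfin : FiniteDimensional k E := IntermediateField.finiteDimensional_adjoin fun x _ =>
    Algebra.IsIntegral.isIntegral x
  have hN : NumberField E := NumberField.of_module_finite k E
  refine ⟨E, inferInstance, hN, inferInstance, E.val, fun σ hσ => ?_⟩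
  have h1 : ∀ P ∈ z.support, mapP (σ : Ω →+* Ω) P = P := by
    intro P hP
    cases P with
    | none => rfl
    | some x =>
      have h2 : x ∈ E := by
        apply IntermediateField.subset_adjoin
        refine Finset.mem_coe.mpr (Finset.mem_biUnion.mpr ⟨some x, hP, ?_⟩)
        simp
      exact congrArg some (hσ ⟨x, h2⟩)
  rw [bmap, Finsupp.lmapDomain_apply]
  refine (Finsupp.mapDomain_congr (g := id) fun P hP => h1 P hP).trans ?_
  exact Finsupp.mapDomain_id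

lemma bRep_disc (hn : 2 ≤ n) (v : BQ n Ω) : ∃ (K : Type) (_ : Field K) (_ : NumberField K)
    (_ : Algebra k K) (j : K →ₐ[k] Ω), Fixed (bRep Ω n hn) j v := by
  obtain ⟨z, rfl⟩ := Submodule.Quotient.mk_surjective _ v
  obtain ⟨K, i1, i2, i3, j, hj⟩ := exists_numberField (k := k) z
  refine ⟨K, i1, i2, i3, j, fun σ hσ => ?_⟩
  rw [bRep_mk, hj σ hσ]

end disc

end Pool.Agent.Run7.h508.ZW
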