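import Mathlib
import Pool.Agent.Q219.ZN.Min

/-!
# The field of the fourth roots of unity
-/

set_option autoImplicit false
set_option linter.unusedSectionVars false

namespace Pool.Agent.Run7.h508.ZW

open GonP NumberField Pool.Agent.Q219.ZG Pool.Agent.Q219.ZN

/-- the imaginary part of the polylogarithm at `± i` -/
lemma Li_im_ne {n : ℕ} (hn : 2 ≤ n) {z : ℂ} (hz : z ^ 2 = -1) : (Li n z).im ≠ 0 := by
  have hz2 : z * z = -1 := by rw [← hz]; ring
  have hnorm : ‖z‖ = 1 := by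
    have h1 : ‖z‖ ^ 2 = 1 := by rw [← norm_pow, hz, norm_neg, norm_one]
    have h2 : 0 ≤ ‖z‖ := norm_nonneg z
    nlinarith
  have him : z.im ^ 2 = 1 := by
    have h1 := congrArg Complex.re hz2
    have h2 := congrArg Complex.im hz2
    simp only [Complex.mul_re, Complex.mul_im, Complex.neg_re, Complex.neg_im, Complex.one_re,
      Complex.one_im] at h1 h2
    have h3 : z.re * z.im = 0 := by linarith
    rcases mul_eq_zero.mp h3 with h4 | h4
    · rw [h4] at h1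
      nlinarith
    · rw [h4] at h1
      nlinarith [sq_nonneg z.re]
  have hs0 : Summable fun j : ℕ => 1 / ((j : ℝ) + 1) ^ 2 := by
    have h2 := (summable_nat_add_iff 1).2 (Real.summable_one_div_nat_pow.2 (by norm_num : 1 < 2))
    refine h2.congr fun j => ?_
    push_cast
    rfl
  have hbd : ∀ j : ℕ, ‖z ^ (j + 1) / ((j : ℂ) + 1) ^ n‖ ≤ 1 / ((j : ℝ) + 1) ^ 2 := by
    intro j
    have h1 : ‖((j : ℂ) + 1)‖ = (j : ℝ) + 1 := by
      have h2 : ((j : ℂ) + 1) = (((j : ℝ) + 1 : ℝ) : ℂ) := by push_cast; rfl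
      rw [h2, Complex.norm_real, Real.norm_of_nonneg (by positivity)]
    rw [norm_div, norm_pow, norm_pow, hnorm, one_pow, h1]
    apply one_div_le_one_div_of_le (by positivity)
    exact pow_le_pow_right₀ (by linarith [Nat.cast_nonneg (α := ℝ) j]) hn
  have hs : Summable fun j : ℕ => z ^ (j + 1) / ((j : ℂ) + 1) ^ n :=
    Summable.of_norm_bounded hs0 hbd
  have hsplit : Li n z = z + ∑' j : ℕ, z ^ (j + 1 + 1) / (((j + 1 : ℕ) : ℂ) + 1) ^ n := by
    unfold Li
    rw [hs.tsum_eq_zero_add]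
    congr 1
    simp
  have hzeta : ∑' j : ℕ, 1 / ((j : ℝ) + 1) ^ 2 = Real.pi ^ 2 / 6 := by
    have h1 := hasSum_zeta_two.tsum_eq
    rw [hasSum_zeta_two.summable.tsum_eq_zero_add] at h1
    rw [← h1]
    norm_num
  have htail : ∑' j : ℕ, 1 / (((j + 1 : ℕ) : ℝ) + 1) ^ 2 = Real.pi ^ 2 / 6 - 1 := by
    rw [hs0.tsum_eq_zero_add] at hzeta
    norm_num at hzeta ⊢
    linarith
  have hpi : Real.pi ^ 2 / 6 - 1 < 1 := by
    have h1 := Real.pi_lt_d2
    have h2 := Real.pi_pos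
    nlinarith
  have hlt : ‖∑' j : ℕ, z ^ (j + 1 + 1) / (((j + 1 : ℕ) : ℂ) + 1) ^ n‖ < 1 := by
    have h1 : Summable fun j : ℕ => 1 / (((j + 1 : ℕ) : ℝ) + 1) ^ 2 :=
      (summable_nat_add_iff 1).2 hs0
    calc ‖∑' j : ℕ, z ^ (j + 1 + 1) / (((j + 1 : ℕ) : ℂ) + 1) ^ n‖
        ≤ ∑' j : ℕ, 1 / (((j + 1 : ℕ) : ℝ) + 1) ^ 2 :=
          tsum_of_norm_bounded h1.hasSum fun j => hbd (j + 1)
      _ < 1 := by rw [htail]; exact hpi
  intro h0
  rw [hsplit, Complex.add_im] at h0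
  have h1 := Complex.abs_im_le_norm (∑' j : ℕ, z ^ (j + 1 + 1) / (((j + 1 : ℕ) : ℂ) + 1) ^ n)
  have h2 : |(∑' j : ℕ, z ^ (j + 1 + 1) / (((j + 1 : ℕ) : ℂ) + 1) ^ n).im| = 1 := by
    have h3 : (∑' j : ℕ, z ^ (j + 1 + 1) / (((j + 1 : ℕ) : ℂ) + 1) ^ n).im = -z.im := by linarith
    rw [h3, abs_neg]
    have h4 : |z.im| ^ 2 = 1 := by rw [sq_abs, him]
    have h5 := abs_nonneg z.im
    nlinarith
  linarith

section field

variable {F : Type} [Field F] {x : F}

lemma four_mem_Ker (n : ℕ) (hx : x ^ 2 = -1) : (4 : ℤ) • gen (some x) ∈ Ker n F := by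
  change deltaS F (R (n - 1) F) ((4 : ℤ) • gen (some x)) = 0
  have h1 : deltaS F (R (n - 1) F) ((4 : ℤ) • gen (some x)) =
      (4 : ℤ) • tm (toQuo (R (n - 1) F) (gen (some x))) (cl x) := by
    unfold deltaS
    rw [lift_zsmul, lift_gen]
  have hx0 : x ≠ 0 := by
    rintro rfl
    rw [zero_pow (by norm_num)] at hx
    exact zero_ne_one (neg_eq_zero.mp hx.symm).symm
  have h2 : (4 : ℤ) • cl x = 0 := by
    unfold cl
    rw [dif_neg hx0]
    have h3 : (Units.mk0 x hx0) ^ 4 = 1 := by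
      apply Units.ext
      rw [Units.val_pow_eq_pow_val, Units.val_mk0, Units.val_one]
      calc x ^ 4 = (x ^ 2) ^ 2 := by ring
        _ = 1 := by rw [hx]; ring
    have h4 : (4 : ℤ) • Additive.ofMul (Units.mk0 x hx0) =
        Additive.ofMul ((Units.mk0 x hx0) ^ 4) := by
      rw [ofMul_pow]
      exact_mod_cast rfl
    rw [h4, h3]
    rfl
  rw [h1]
  have h5 : (4 : ℤ) • tm (toQuo (R (n - 1) F) (gen (some x))) (cl x) =
      tm (toQuo (R (n - 1) F) (gen (some x))) ((4 : ℤ) • cl x) :=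
    (TensorProduct.tmul_smul (4 : ℤ) _ _).symm
  rw [h5, h2]
  exact TensorProduct.tmul_zero _ _

lemma value_four {n : ℕ} (hn : 2 ≤ n) (he : ¬ Odd n) (hx : x ^ 2 = -1) (σ : F →+* ℂ) :
    value n σ ((4 : ℤ) • gen (some x)) ≠ 0 := by
  have hz : (σ x) ^ 2 = -1 := by rw [← map_pow, hx, map_neg, map_one]
  have hnorm : ‖σ x‖ = 1 := by
    have h1 : ‖σ x‖ ^ 2 = 1 := by rw [← norm_pow, hz, norm_neg, norm_one]
    have h2 : 0 ≤ ‖σ x‖ := norm_nonneg _
    nlinarith
  rw [value_zsmul]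
  have h1 : value n σ (gen (some x)) = polylog n (some (σ x)) := lift_gen _ _
  have h3 : polylog n (some (σ x)) = part n (liSum n (σ x)) := by
    change (if ‖σ x‖ ≤ 1 then _ else _) = _
    rw [if_pos hnorm.le]
  have h4 : liSum n (σ x) = Li n (σ x) := by
    unfold liSum
    rw [Finset.sum_eq_single 0]
    · rw [pow_zero, mul_one, Nat.sub_zero]
      have h5 : beta 0 = 1 := by
        unfold beta
        simp
      rw [h5, Complex.ofReal_one, one_mul]
    · intro k _ hk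
      rw [hnorm, Real.log_one, zero_pow hk, mul_zero, Complex.ofReal_zero, zero_mul]
    · intro h
      exact absurd (Finset.mem_range.2 (by omega)) h
  rw [h1, h3, h4]
  unfold part
  rw [if_neg he]
  exact mul_ne_zero (by norm_num) (Li_im_ne hn hz)

end field

/-- the field of the fourth roots of unity -/
abbrev G4 : Type := CyclotomicField 4 ℚ

instance instCyc : IsCyclotomicExtension {4} ℚ G4 := by
  have : NeZero ((4 : ℕ) : ℚ) := ⟨by norm_num⟩
  exact CyclotomicField.isCyclotomicExtension 4 ℚ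

lemma exists_sqrt : ∃ x : G4, x ^ 2 = -1 ∧ ∀ σ τ : G4 →+* ℂ, σ x = τ x → σ = τ := by
  have hζ := IsCyclotomicExtension.zeta_spec 4 ℚ G4
  refine ⟨IsCyclotomicExtension.zeta 4 ℚ G4, ?_, fun σ τ h => ?_⟩
  · set ζ : G4 := IsCyclotomicExtension.zeta 4 ℚ G4
    have h1 : (ζ ^ 2 - 1) * (ζ ^ 2 + 1) = 0 := by
      have h2 : ζ ^ 4 = 1 := hζ.pow_eq_one
      linear_combination h2
    rcases mul_eq_zero.mp h1 with h2 | h2
    · exfalso
      have h3 : ζ ^ 2 = 1 := sub_eq_zero.mp h2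
      have h4 := (hζ.pow_eq_one_iff_dvd 2).mp h3
      omega
    · exact eq_neg_of_add_eq_zero_left h2
  · have h1 : σ.toRatAlgHom = τ.toRatAlgHom := by
      refine (hζ.powerBasis ℚ).algHom_ext ?_
      rw [IsPrimitiveRoot.powerBasis_gen]
      exact h
    ext y
    exact DFunLike.congr_fun h1 y

lemma totallyComplex : IsTotallyComplex G4 := by
  obtain ⟨x, hx, -⟩ := exists_sqrt
  refine ⟨fun v => ?_⟩
  by_contra h
  rw [InfinitePlace.not_isComplex_iff_isReal] at h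
  obtain ⟨φ, hφ, -⟩ := h
  have h1 : (φ x) ^ 2 = -1 := by rw [← map_pow, hx, map_neg, map_one]
  have h2 : (starRingEnd ℂ) (φ x) = φ x := RingHom.congr_fun hφ x
  obtain ⟨r, hr⟩ := Complex.conj_eq_iff_real.mp h2
  rw [hr] at h1
  have h3 : r ^ 2 = -1 := by exact_mod_cast h1
  nlinarith [sq_nonneg r]

lemma par_le {n : ℕ} (hn : 3 ≤ n) : Par n G4 ≤ Val n G4 := by
  obtain ⟨x, hx, hext⟩ := exists_sqrt
  have hy : ∃ y ∈ Ker n G4, ∀ σ : G4 →+* ℂ, value n σ y ≠ 0 := by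
    by_cases ho : Odd n
    · exact ⟨gen (some 1), one_mem_Ker n G4, fun σ => value_one (by omega) ho σ⟩
    · exact ⟨(4 : ℤ) • gen (some x), four_mem_Ker n hx, fun σ => value_four (by omega) ho hx σ⟩
  obtain ⟨y, hyK, hy⟩ := hy
  intro φ hφ
  obtain ⟨σ₀⟩ : Nonempty (G4 →+* ℂ) := inferInstance
  have h2 : ∀ τ : G4 →+* ℂ, τ = σ₀ ∨ τ = conj σ₀ := by
    intro τ
    have h3 : (σ₀ x) ^ 2 = -1 := by rw [← map_pow, hx, map_neg, map_one]
    have h4 : (τ x) ^ 2 = -1 := by rw [← map_pow, hx, map_neg, map_one]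
    have h5 : (τ x - σ₀ x) * (τ x + σ₀ x) = 0 := by linear_combination h4 - h3
    rcases mul_eq_zero.mp h5 with h6 | h6
    · left
      exact hext τ σ₀ (sub_eq_zero.mp h6)
    · right
      apply hext
      change τ x = (starRingEnd ℂ) (σ₀ x)
      rw [eq_neg_of_add_eq_zero_left h6]
      have h7 : (starRingEnd ℂ) (σ₀ x) * (starRingEnd ℂ) (σ₀ x) = -1 := by
        rw [← map_mul, ← sq, h3, map_neg, map_one]
      have h8 : σ₀ x * (starRingEnd ℂ) (σ₀ x) = 1 := by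
        rw [Complex.mul_conj, Complex.normSq_eq_norm_sq]
        have h9 : ‖σ₀ x‖ ^ 2 = 1 := by rw [← norm_pow, h3, norm_neg, norm_one]
        rw [h9, Complex.ofReal_one]
      calc -σ₀ x = σ₀ x * ((starRingEnd ℂ) (σ₀ x) * (starRingEnd ℂ) (σ₀ x)) := by rw [h7]; ring
        _ = (starRingEnd ℂ) (σ₀ x) := by rw [← mul_assoc, h8, one_mul]
  have h3 : φ = (φ σ₀ / value n σ₀ y) • fun σ => value n σ y := by
    funext τ
    rcases h2 τ with rfl | rfl
    · change φ τ = φ τ / value n τ y * value n τ y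
      rw [div_mul_cancel₀ _ (hy τ)]
    · change φ (conj σ₀) = φ σ₀ / value n σ₀ y * value n (conj σ₀) y
      rw [hφ, value_conj (by omega)]
      have h5 := hy σ₀
      field_simp
  rw [h3]
  exact Submodule.smul_mem _ _ (vec_mem_Val hyK)

end Pool.Agent.Run7.h508.ZW
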