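import Mathlib
import Pool.Agent.Q219.ZN.Min
import Pool.Agent.Run7.h508.BR.DFM

/-!
# Functions which are potentially given by polylogarithms
-/

set_option autoImplicit false
set_option linter.unusedSectionVars false

namespace Pool.Agent.Run7.h508.ZW

open GonP NumberField Pool.Agent.Q219.ZG Pool.Agent.Q219.ZN Pool.Agent.Run7.h508.BR

/-- a common extension -/
lemma exists_ext {F L L' : Type} [Field F] [NumberField F] [Field L] [NumberField L] [Field L']
    [NumberField L'] (f : F →+* L) (f' : F →+* L') : ∃ (M : Type) (_ : Field M)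
      (_ : NumberField M) (a : L →+* M) (b : L' →+* M), a.comp f = b.comp f' := by
  let _ : Algebra F L := f.toAlgebra
  let _ : Algebra F L' := f'.toAlgebra
  obtain ⟨N, i1, i2, i3, i4, i5, i6, i7, i8⟩ := exists_common F L L'
  refine ⟨N, i1, i2, algebraMap L N, algebraMap L' N, ?_⟩
  have h1 : (algebraMap L N).comp f = algebraMap F N := (IsScalarTower.algebraMap_eq F L N).symm
  have h2 : (algebraMap L' N).comp f' = algebraMap F N := (IsScalarTower.algebraMap_eq F L' N).symm
  rw [h1, h2]

lemma pull_pull {F L M : Type} [Field F] [Field L] [Field M] (f : F →+* L) (g : L →+* M)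
    (φ : (F →+* ℂ) → ℝ) : pull g (pull f φ) = pull (g.comp f) φ := rfl

lemma exists_lift {F L : Type} [Field F] [NumberField F] [Field L] [NumberField L] (f : F →+* L)
    (σ : F →+* ℂ) : ∃ τ : L →+* ℂ, τ.comp f = σ := by
  let _ : Algebra F L := f.toAlgebra
  have hfin : FiniteDimensional F L := Module.Finite.of_restrictScalars_finite ℚ F L
  exact ⟨ComplexEmbedding.lift L σ, ComplexEmbedding.lift_comp_algebraMap L σ⟩

lemma pull_injective {F L : Type} [Field F] [NumberField F] [Field L] [NumberField L]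
    (f : F →+* L) : Function.Injective (pull f) := by
  intro a b hab
  funext σ
  obtain ⟨τ, hτ⟩ := exists_lift f σ
  have h1 := congrFun hab τ
  change a (τ.comp f) = b (τ.comp f) at h1
  rwa [hτ] at h1

section

variable (n : ℕ) (F : Type) [Field F] [NumberField F]

/-- The functions on the embeddings of `F` which become, over a finite extension `L` of `F`, real
linear combinations of the functions `τ ↦ L_n(τ(α))`, `α ∈ ker δ_n(L)`. -/
def PVal (hn : 3 ≤ n) : Submodule ℝ ((F →+* ℂ) → ℝ) where
  carrier := {φ | ∃ (L : Type) (_ : Field L) (_ : NumberField L) (f : F →+* L),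
    pull f φ ∈ Val n L}
  zero_mem' := ⟨F, inferInstance, inferInstance, RingHom.id F, by
    rw [map_zero]
    exact Submodule.zero_mem _⟩
  add_mem' := by
    rintro a b ⟨L, i1, i2, f, hf⟩ ⟨L', i1', i2', f', hf'⟩
    obtain ⟨M, j1, j2, u, v, huv⟩ := exists_ext f f'
    refine ⟨M, j1, j2, u.comp f, ?_⟩
    rw [map_add]
    refine Submodule.add_mem _ ?_ ?_
    · rw [← pull_pull]
      exact pull_Val hn u hf
    · rw [huv, ← pull_pull]
      exact pull_Val hn v hf'
  smul_mem' := by
    rintro c a ⟨L, i1, i2, f, hf⟩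
    refine ⟨L, i1, i2, f, ?_⟩
    rw [map_smul]
    exact Submodule.smul_mem _ _ hf

end

section

variable {n : ℕ} (hn : 3 ≤ n)

lemma mem_PVal {F : Type} [Field F] [NumberField F] {φ : (F →+* ℂ) → ℝ} :
    φ ∈ PVal n F hn ↔ ∃ (L : Type) (_ : Field L) (_ : NumberField L) (f : F →+* L),
      pull f φ ∈ Val n L := Iff.rfl

include hn in
lemma PVal_le (F : Type) [Field F] [NumberField F] : PVal n F hn ≤ Par n F := by
  rintro φ ⟨L, i1, i2, f, hf⟩ σ
  obtain ⟨τ, rfl⟩ := exists_lift f σ
  exact Val_le_Par (by omega) L hf τ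

lemma Val_le_PVal (F : Type) [Field F] [NumberField F] : Val n F ≤ PVal n F hn := by
  intro φ hφ
  exact ⟨F, inferInstance, inferInstance, RingHom.id F, hφ⟩

lemma pull_PVal {F L : Type} [Field F] [NumberField F] [Field L] [NumberField L] (f : F →+* L)
    {φ : (F →+* ℂ) → ℝ} (hφ : φ ∈ PVal n F hn) : pull f φ ∈ PVal n L hn := by
  obtain ⟨L', i1, i2, f', hf'⟩ := hφ
  obtain ⟨M, j1, j2, u, v, huv⟩ := exists_ext f f'
  refine ⟨M, j1, j2, u, ?_⟩
  rw [pull_pull, huv, ← pull_pull]
  exact pull_Val hn v hf'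

lemma PVal_of_pull {F L : Type} [Field F] [NumberField F] [Field L] [NumberField L] (f : F →+* L)
    {φ : (F →+* ℂ) → ℝ} (hφ : pull f φ ∈ PVal n L hn) : φ ∈ PVal n F hn := by
  obtain ⟨L', i1, i2, f', hf'⟩ := hφ
  exact ⟨L', i1, i2, f'.comp f, hf'⟩

/-- a function fixed by the Galois group comes from the subfield -/
lemma descentG {K N : Type} [Field K] [NumberField K] [Field N] [NumberField N] [Algebra K N]
    [IsGalois K N] {φ : (N →+* ℂ) → ℝ} (hφ : ∀ g : N ≃ₐ[K] N, pull (g : N →+* N) φ = φ) :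
    ∃ ψ : (K →+* ℂ) → ℝ, pull (algebraMap K N) ψ = φ := by
  have hfin : FiniteDimensional K N := Module.Finite.of_restrictScalars_finite ℚ K N
  have key : ∀ τ τ' : N →+* ℂ, τ.comp (algebraMap K N) = τ'.comp (algebraMap K N) →
      φ τ = φ τ' := by
    intro τ τ' h
    obtain ⟨g, hg⟩ := NumberField.ComplexEmbedding.exists_comp_symm_eq_of_comp_eq (k := K) τ τ' h
    have h3 := congrFun (hφ g.symm) τ
    rw [← h3, ← hg]
    rfl
  refine ⟨fun τ => φ (ComplexEmbedding.lift N τ), funext fun σ => ?_⟩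
  exact key _ _ (ComplexEmbedding.lift_comp_algebraMap N _)

lemma Par_of_pull {F L : Type} [Field F] [NumberField F] [Field L] [NumberField L] (f : F →+* L)
    {φ : (F →+* ℂ) → ℝ} (hφ : pull f φ ∈ Par n L) : φ ∈ Par n F := by
  intro σ
  obtain ⟨τ, rfl⟩ := exists_lift f σ
  exact hφ τ

end

section fun'

variable (n : ℕ) (k : Type) [Field k] [NumberField k]

/-- the functor of the functions with the parity -/
noncomputable def parFun : DescFun ℝ k where
  M := fun K _ _ _ => Par n K
  grp := fun K _ _ _ => inferInstance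
  mod := fun K _ _ _ => inferInstance
  map := fun f => (pull (f : _ →+* _)).restrict fun φ hφ => pull_Par _ hφ
  map_id := fun K _ _ _ x => rfl
  map_comp := fun g f x => rfl
  inj := fun f a b hab => Subtype.ext (pull_injective _ (congrArg Subtype.val hab))
  descent := fun K N _ _ _ _ _ _ _ _ _ x hx => by
    obtain ⟨ψ, hψ⟩ := descentG (K := K) (φ := x.1) fun g => congrArg Subtype.val (hx g)
    have h1 : pull (algebraMap K N) ψ ∈ Par n N := by
      rw [hψ]
      exact x.2
    exact ⟨⟨ψ, Par_of_pull _ h1⟩, Subtype.ext hψ⟩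

/-- the functor of the functions which are potentially given by polylogarithms -/
noncomputable def pvalFun (hn : 3 ≤ n) : DescFun ℝ k where
  M := fun K _ _ _ => PVal n K hn
  grp := fun K _ _ _ => inferInstance
  mod := fun K _ _ _ => inferInstance
  map := fun f => (pull (f : _ →+* _)).restrict fun φ hφ => pull_PVal hn _ hφ
  map_id := fun K _ _ _ x => rfl
  map_comp := fun g f x => rfl
  inj := fun f a b hab => Subtype.ext (pull_injective _ (congrArg Subtype.val hab))
  descent := fun K N _ _ _ _ _ _ _ _ _ x hx => by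
    obtain ⟨ψ, hψ⟩ := descentG (K := K) (φ := x.1) fun g => congrArg Subtype.val (hx g)
    have h1 : pull (algebraMap K N) ψ ∈ PVal n N hn := by
      rw [hψ]
      exact x.2
    exact ⟨⟨ψ, PVal_of_pull hn _ h1⟩, Subtype.ext hψ⟩

/-- the inclusion -/
noncomputable def inc (hn : 3 ≤ n) : DescMor (pvalFun n k hn) (parFun n k) where
  app := fun K _ _ _ => Submodule.inclusion (PVal_le hn K)
  nat := fun f x => rfl

variable {n k}

/-- **No growth in the unramified case.** -/
theorem pot_all (hn : 3 ≤ n) {m : ℕ} (hm : m ≠ 0) (hk : IsTotallyComplex k)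
    (h0 : Par n k ≤ PVal n k hn)
    (h : ∀ (K L : Type) [Field K] [NumberField K] [Field L] [NumberField L] [Algebra k K]
      [Algebra K L] [Algebra k L] [IsScalarTower k K L] [IsGalois K L], IsTotallyComplex K →
      (Module.finrank K L).Prime → UnrSplit m K L →
      Par n L ≤ (Par n K).map (pull (algebraMap K L)) ⊔ PVal n L hn)
    (F : Type) [Field F] [NumberField F] : Par n F ≤ PVal n F hn := by
  obtain ⟨N, i1, i2, i3, i4, i5, i6, i7, i8⟩ := exists_common ℚ k F
  have h1 : Par n N ≤ PVal n N hn := by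
    intro φ hφ
    obtain ⟨y, z, hyz⟩ := (inc n k hn).noGrow_coker hm (fun K L _ _ _ _ _ _ _ _ _ hK hp hu x => by
      obtain ⟨a, ⟨y, hy, rfl⟩, z, hz, hsum⟩ := Submodule.mem_sup.mp (h K L hK hp hu x.2)
      exact ⟨⟨y, hy⟩, ⟨z, hz⟩, Subtype.ext hsum.symm⟩) k N hk (Algebra.ofId k N)
      (⟨φ, hφ⟩ : Par n N)
    have h2 : φ = pull ((Algebra.ofId k N : k →ₐ[k] N) : k →+* N) y.1 + z.1 :=
      congrArg Subtype.val hyz
    rw [h2]
    exact Submodule.add_mem _ (pull_PVal hn _ (h0 y.2)) z.2
  intro φ hφ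
  exact PVal_of_pull hn (algebraMap F N) (h1 (pull_Par _ hφ))

end fun'

end Pool.Agent.Run7.h508.ZW
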