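import Mathlib
import Pool.Agent.Run7.h508.ZW.Pot

/-!
# Traces of the values of polylogarithms, and the weak form of Zagier's conjecture
-/

set_option autoImplicit false
set_option linter.unusedSectionVars false

namespace Pool.Agent.Run7.h508.ZW

open GonP NumberField Pool.Agent.Q219.ZG Pool.Agent.Q219.ZN Pool.Agent.Run7.h508.BR

open Classical in
/-- The sum of the numbers `L_n(τ(α))` over the embeddings `τ` of `L` which extend the embedding `σ`
of `F`, for `α` in `ℤ[P^1_L]`. -/
noncomputable def traceValue (n : ℕ) {F L : Type} [Field F] [Field L] [NumberField L]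
    [Algebra F L] (σ : F →+* ℂ) (α : ZP L) : ℝ :=
  ∑ τ : L →+* ℂ, if τ.comp (algebraMap F L) = σ then value n τ α else 0

/-- **The weak form of the nonvanishing for `F`**: there are a finite Galois extension `L` of `F` and
elements `y_w` of `ker δ_n(L)`, one for each index `w` of `F`, such that the determinant of the
traces of the numbers `L_n(τ(y_w))` is not zero. -/
def WeakNonvanishing (n : ℕ) (F : Type) [Field F] [NumberField F] : Prop :=
  ∃ (L : Type) (_ : Field L) (_ : NumberField L) (_ : Algebra F L) (_ : IsGalois F L)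
    (y : Idx n F → ZP L), (∀ w, y w ∈ Ker n L) ∧
    (determinant fun w v => traceValue n v.1.embedding (y w)) ≠ 0

/-- **The weak form of Zagier's conjecture for `F`**: there are a finite Galois extension `L` of `F`
and elements `y_w` of `ker δ_n(L)`, one for each index `w` of `F`, such that `ζ_F(n)` is a nonzero
rational multiple of `π^(n d_(n-1)) d_F^(-1/2)` times the determinant of the traces of the numbers
`L_n(τ(y_w))`. -/
def WeakZagier (n : ℕ) (F : Type) [Field F] [NumberField F] : Prop :=
  ∃ (L : Type) (_ : Field L) (_ : NumberField L) (_ : Algebra F L) (_ : IsGalois F L)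
    (y : Idx n F → ZP L), (∀ w, y w ∈ Ker n L) ∧
    IsMultiple (dedekindZeta F n)
      (factorZ n F * determinant fun w v => traceValue n v.1.embedding (y w))

section

variable {n : ℕ}

open Classical in
/-- the trace of a function -/
noncomputable def trc {F L : Type} [Field F] [Field L] [NumberField L] [Algebra F L] :
    ((L →+* ℂ) → ℝ) →ₗ[ℝ] ((F →+* ℂ) → ℝ) where
  toFun := fun φ σ => ∑ τ : L →+* ℂ, if τ.comp (algebraMap F L) = σ then φ τ else 0
  map_add' := fun a b => by
    funext σ
    change _ = (∑ τ : L →+* ℂ, if τ.comp (algebraMap F L) = σ then a τ else 0) +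
      ∑ τ : L →+* ℂ, if τ.comp (algebraMap F L) = σ then b τ else 0
    rw [← Finset.sum_add_distrib]
    refine Finset.sum_congr rfl fun τ _ => ?_
    split_ifs
    · rfl
    · rw [add_zero]
  map_smul' := fun c a => by
    funext σ
    change _ = c * ∑ τ : L →+* ℂ, if τ.comp (algebraMap F L) = σ then a τ else 0
    rw [Finset.mul_sum]
    refine Finset.sum_congr rfl fun τ _ => ?_
    split_ifs
    · rfl
    · rw [mul_zero]

lemma trc_value {F L : Type} [Field F] [Field L] [NumberField L] [Algebra F L] (α : ZP L)
    (σ : F →+* ℂ) : trc (fun τ => value n τ α) σ = traceValue n σ α := rfl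

open Classical in
lemma trc_apply {F L : Type} [Field F] [Field L] [NumberField L] [Algebra F L]
    (φ : (L →+* ℂ) → ℝ) (σ : F →+* ℂ) :
    trc φ σ = ∑ τ : L →+* ℂ, if τ.comp (algebraMap F L) = σ then φ τ else 0 := rfl

open Classical in
/-- the trace as a sum over the Galois group -/
lemma trc_gal {F L : Type} [Field F] [NumberField F] [Field L] [NumberField L] [Algebra F L]
    [IsGalois F L] [Fintype (L ≃ₐ[F] L)] (φ : (L →+* ℂ) → ℝ) (τ₀ : L →+* ℂ) :
    trc φ (τ₀.comp (algebraMap F L)) = ∑ g : L ≃ₐ[F] L, φ (τ₀.comp (g : L →+* L)) := by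
  rw [trc_apply, ← Finset.sum_filter]
  symm
  refine Finset.sum_bij (fun (g : L ≃ₐ[F] L) _ => τ₀.comp (g : L →+* L)) ?_ ?_ ?_ ?_
  · intro g _
    rw [Finset.mem_filter]
    refine ⟨Finset.mem_univ _, ?_⟩
    ext x
    exact congrArg τ₀ (g.commutes x)
  · intro g _ g' _ h
    ext x
    exact τ₀.injective (RingHom.congr_fun h x)
  · intro τ hτ
    rw [Finset.mem_filter] at hτ
    obtain ⟨g, hg⟩ := NumberField.ComplexEmbedding.exists_comp_symm_eq_of_comp_eq (k := F) τ₀ τ
      hτ.2.symm
    exact ⟨g.symm, Finset.mem_univ _, hg⟩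
  · intro g _
    rfl

/-- the trace of the value is potentially given by polylogarithms -/
lemma trace_mem (hn : 3 ≤ n) {F L : Type} [Field F] [NumberField F] [Field L] [NumberField L]
    [Algebra F L] [IsGalois F L] {α : ZP L} (hα : α ∈ Ker n L) :
    (fun σ : F →+* ℂ => traceValue n σ α) ∈ PVal n F hn := by
  have hfin : FiniteDimensional F L := Module.Finite.of_restrictScalars_finite ℚ F L
  have := Fintype.ofFinite (L ≃ₐ[F] L)
  refine ⟨L, inferInstance, inferInstance, algebraMap F L, ?_⟩
  have h1 : pull (algebraMap F L) (fun σ : F →+* ℂ => traceValue n σ α) =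
      ∑ g : L ≃ₐ[F] L, pull (g : L →+* L) (fun τ => value n τ α) := by
    funext τ
    rw [Finset.sum_apply]
    exact trc_gal (F := F) (fun τ => value n τ α) τ
  rw [h1]
  exact Submodule.sum_mem _ fun g _ => pull_Val hn _ (vec_mem_Val hα)

/-- finitely many functions are given by polylogarithms over one extension -/
lemma exists_one (hn : 3 ≤ n) {F : Type} [Field F] [NumberField F]
    (h : Par n F ≤ PVal n F hn) : ∃ (L : Type) (_ : Field L) (_ : NumberField L) (_ : Algebra F L)
      (_ : IsGalois F L), Par n F ≤ (Val n L).comap (pull (algebraMap F L)) := by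
  obtain ⟨S, hS⟩ : (Par n F).FG := IsNoetherian.noetherian _
  have h1 : ∀ T : Finset ((F →+* ℂ) → ℝ), (∀ φ ∈ T, φ ∈ PVal n F hn) →
      ∃ (L : Type) (_ : Field L) (_ : NumberField L) (f : F →+* L),
        ∀ φ ∈ T, pull f φ ∈ Val n L := by
    classical
    intro T
    induction T using Finset.induction_on with
    | empty =>
      intro _
      exact ⟨F, inferInstance, inferInstance, RingHom.id F, fun φ hφ => absurd hφ (by simp)⟩
    | insert a T ha ih =>
      intro hT
      obtain ⟨L, i1, i2, f, hf⟩ := ih fun φ hφ => hT φ (Finset.mem_insert_of_mem hφ)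
      obtain ⟨L', i1', i2', f', hf'⟩ := hT a (Finset.mem_insert_self a T)
      obtain ⟨M, j1, j2, u, v, huv⟩ := exists_ext f f'
      refine ⟨M, j1, j2, u.comp f, fun φ hφ => ?_⟩
      rcases Finset.mem_insert.mp hφ with rfl | hφ
      · rw [huv, ← pull_pull]
        exact pull_Val hn v hf'
      · rw [← pull_pull]
        exact pull_Val hn u (hf φ hφ)
  obtain ⟨L, i1, i2, f, hf⟩ := h1 S fun φ hφ => h (by
    rw [← hS]
    exact Submodule.subset_span hφ)
  let _ : Algebra F L := f.toAlgebra
  obtain ⟨N, j1, j2, j3, j4, j5, j6, j7, j8⟩ := exists_common F L L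
  refine ⟨N, j1, j2, j3, j8, ?_⟩
  rw [← hS, Submodule.span_le]
  intro φ hφ
  have h2 : algebraMap F N = (algebraMap L N).comp f := IsScalarTower.algebraMap_eq F L N
  change pull (algebraMap F N) φ ∈ Val n N
  rw [h2, ← pull_pull]
  exact pull_Val hn _ (hf φ hφ)

/-- the criterion -/
lemma weak_iff (hn : 3 ≤ n) (F : Type) [Field F] [NumberField F] :
    WeakNonvanishing n F ↔ Par n F ≤ PVal n F hn := by
  classical
  have hn0 : 0 < n := by omega
  constructor
  · rintro ⟨L, i1, i2, i3, i4, y, hy, hdet⟩ φ hφ
    set M : Matrix (Idx n F) (Idx n F) ℝ :=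
      Matrix.of fun w v => traceValue n v.1.embedding (y w) with hM
    have hdet' : M.det ≠ 0 := hdet
    obtain ⟨c, hc⟩ : ∃ c : Idx n F → ℝ, ∀ v : Idx n F,
        ∑ w, c w * traceValue n v.1.embedding (y w) = φ v.1.embedding := by
      refine ⟨Matrix.vecMul (fun v => φ v.1.embedding) M⁻¹, fun v => ?_⟩
      have h3 : Matrix.vecMul (Matrix.vecMul (fun v : Idx n F => φ v.1.embedding) M⁻¹) M =
          fun v : Idx n F => φ v.1.embedding := by
        rw [Matrix.vecMul_vecMul, Matrix.nonsing_inv_mul _ (isUnit_iff_ne_zero.2 hdet'),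
          Matrix.vecMul_one]
      exact congrFun h3 v
    set ψ : (F →+* ℂ) → ℝ := ∑ w, c w • fun σ => traceValue n σ (y w) with hψ
    have hψV : ψ ∈ PVal n F hn := Submodule.sum_mem _ fun w _ =>
      Submodule.smul_mem _ _ (trace_mem hn (hy w))
    have hψa : ∀ σ, ψ σ = ∑ w, c w * traceValue n σ (y w) := by
      intro σ
      rw [hψ, Finset.sum_apply]
      rfl
    have h1 : φ - ψ = 0 := by
      refine eq_zero_of_places hn0 (Submodule.sub_mem _ hφ (PVal_le hn F hψV)) fun v => ?_
      change φ v.1.embedding - ψ v.1.embedding = 0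
      rw [hψa, hc, sub_self]
    rw [sub_eq_zero.1 h1]
    exact hψV
  · intro h
    obtain ⟨L, i1, i2, i3, i4, hL⟩ := exists_one hn h
    refine ⟨L, i1, i2, i3, i4, ?_⟩
    let ev : ((L →+* ℂ) → ℝ) →ₗ[ℝ] (Idx n F → ℝ) :=
      { toFun := fun φ v => trc φ v.1.embedding
        map_add' := fun a b => by
          funext v
          rw [map_add]
          rfl
        map_smul' := fun c a => by
          funext v
          rw [map_smul]
          rfl }
    set S : Set (Idx n F → ℝ) :=
      {g | ∃ α ∈ Ker n L, g = fun v => traceValue n v.1.embedding α} with hS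
    have hfib : ∀ σ : F →+* ℂ, (∑ τ : L →+* ℂ, if τ.comp (algebraMap F L) = σ then (1 : ℝ) else 0) ≠
        0 := by
      intro σ
      obtain ⟨τ, hτ⟩ := exists_lift (algebraMap F L) σ
      apply ne_of_gt
      refine Finset.sum_pos' (fun τ _ => ?_) ⟨τ, Finset.mem_univ _, ?_⟩
      · split_ifs
        · exact zero_le_one
        · exact le_rfl
      · rw [if_pos hτ]
        exact one_pos
    have hspan : Submodule.span ℝ S = ⊤ := by
      rw [eq_top_iff]
      intro g _
      obtain ⟨φ, hφ, hg⟩ := exists_of_places hn0 (fun v : Idx n F => g v /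
        (∑ τ : L →+* ℂ, if τ.comp (algebraMap F L) = v.1.embedding then (1 : ℝ) else 0))
      have h1 : Val n L ≤ (Submodule.span ℝ S).comap ev := by
        unfold Val
        rw [Submodule.span_le]
        rintro _ ⟨α, hα, rfl⟩
        exact Submodule.subset_span ⟨α, hα, rfl⟩
      have h2 : ev (pull (algebraMap F L) φ) ∈ Submodule.span ℝ S := h1 (hL hφ)
      have h3 : ev (pull (algebraMap F L) φ) = g := by
        funext v
        change trc (pull (algebraMap F L) φ) v.1.embedding = g v
        rw [trc_apply]
        have h4 : ∀ τ : L →+* ℂ, (if τ.comp (algebraMap F L) = v.1.embedding then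
            pull (algebraMap F L) φ τ else 0) =
            φ v.1.embedding * (if τ.comp (algebraMap F L) = v.1.embedding then (1 : ℝ) else 0) := by
          intro τ
          split_ifs with h5
          · rw [mul_one, ← h5]
            rfl
          · rw [mul_zero]
        rw [Finset.sum_congr rfl fun τ _ => h4 τ, ← Finset.mul_sum, hg,
          div_mul_cancel₀ _ (hfib v.1.embedding)]
      rwa [h3] at h2
    obtain ⟨b, hbS, hb, hli⟩ := exists_linearIndependent ℝ S
    rw [hspan] at hb
    let B := Module.Basis.mk hli (by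
      rw [Subtype.range_coe_subtype, Set.ofPred_mem_eq, hb])
    have hfin' : Finite b := Module.Finite.finite_basis B
    have hfin : Fintype b := Fintype.ofFinite b
    have hcard : Fintype.card b = Fintype.card (Idx n F) := by
      rw [← Module.finrank_eq_card_basis B, Module.finrank_fintype_fun_eq_card]
    obtain ⟨e⟩ := Fintype.card_eq.1 hcard.symm
    choose y hy hyv using fun w : Idx n F => hbS (e w).2
    refine ⟨y, hy, ?_⟩
    have h1 : LinearIndependent ℝ (fun w : Idx n F => ((e w : b) : Idx n F → ℝ)) :=
      hli.comp e e.injective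
    have h2 : LinearIndependent ℝ
        (Matrix.of fun w v : Idx n F => traceValue n v.1.embedding (y w)).row := by
      have h3 : (Matrix.of fun w v : Idx n F => traceValue n v.1.embedding (y w)).row =
          fun w : Idx n F => ((e w : b) : Idx n F → ℝ) := by
        funext w
        exact (hyv w).symm
      rw [h3]
      exact h1
    rw [Matrix.linearIndependent_rows_iff_isUnit, Matrix.isUnit_iff_isUnit_det] at h2
    exact h2.ne_zero

/-- the weak form of the conjecture implies the nonvanishing -/
lemma nonvanishing_of_weak (hn : 3 ≤ n) {F : Type} [Field F] [NumberField F]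
    (h : WeakZagier n F) : WeakNonvanishing n F := by
  obtain ⟨L, i1, i2, i3, i4, y, hy, hm⟩ := h
  exact ⟨L, i1, i2, i3, i4, y, hy, right_ne_zero_of_mul
    ((isMultiple_ne hm).1 (Pool.Agent.Q20.ZG.zeta_ne F (by omega)))⟩

/-- the conjecture implies the weak form -/
lemma weak_of_zagier {F : Type} [Field F] [NumberField F] (h : Zagier n F) : WeakZagier n F := by
  classical
  obtain ⟨y, hy, hm⟩ := h
  have hG : IsGalois F F := inferInstance
  refine ⟨F, inferInstance, inferInstance, Algebra.id F, hG, y, hy, ?_⟩
  have h1 : ∀ (σ : F →+* ℂ) (α : ZP F), traceValue n σ α = value n σ α := by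
    intro σ α
    unfold traceValue
    have h2 : ∀ τ : F →+* ℂ, (if τ.comp (algebraMap F F) = σ then value n τ α else 0) =
        if τ = σ then value n τ α else 0 := fun τ => rfl
    rw [Finset.sum_congr rfl fun τ _ => h2 τ, Finset.sum_ite_eq' Finset.univ σ,
      if_pos (Finset.mem_univ σ)]
  have h3 : (fun w v : Idx n F => traceValue n v.1.embedding (y w)) =
      fun w v => value n v.1.embedding (y w) := by
    funext w v
    exact h1 _ _
  rw [h3]
  exact hm

end

end Pool.Agent.Run7.h508.ZW
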