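import Mathlib
import Pool.Agent.Run7.h508.ZW.Weak

/-!
# The weak form of Zagier's conjecture and the theorems of Borel and of Beilinson-Deligne, de Jeu
-/

set_option autoImplicit false
set_option linter.unusedSectionVars false

namespace Pool.Agent.Run7.h508.ZW

open GonP NumberField Pool.Agent.Q219.ZG Pool.Agent.Q219.ZN Pool.Agent.Run7.h508.BR

section

variable {n : ℕ} {T : KTheory}

/-- the trace comes from an element of the `K`-group of `F` -/
lemma exists_trace (hT : T.IsKnown' n) {F L : Type} [Field F] [NumberField F] [Field L]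
    [NumberField L] [Algebra F L] [IsGalois F L] {α : ZP L} (hα : α ∈ Ker n L) :
    ∃ u : T.K F, (∀ σ : F →+* ℂ, T.reg σ u = traceValue n σ α) ∧
      IsPoly T n (T.map (algebraMap F L) u) := by
  classical
  have hfin : FiniteDimensional F L := Module.Finite.of_restrictScalars_finite ℚ F L
  have := Fintype.ofFinite (L ≃ₐ[F] L)
  obtain ⟨x, hx⟩ := hT.polylog α hα
  let z : T.K L := ∑ g : L ≃ₐ[F] L, T.map (g : L →+* L) x
  have hz : ∀ τ : L →+* ℂ, T.reg τ z = traceValue n (τ.comp (algebraMap F L)) α := by
    intro τ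
    rw [map_sum, ← trc_value, trc_gal (F := F)]
    refine Finset.sum_congr rfl fun g _ => ?_
    rw [hT.map_reg, hx]
  let H : Subgroup (L ≃ₐ[ℚ] L) :=
    { carrier := {g | ∀ x : F, g (algebraMap F L x) = algebraMap F L x}
      one_mem' := fun x => rfl
      mul_mem' := fun {a b} ha hb x => by
        change a (b (algebraMap F L x)) = algebraMap F L x
        rw [hb x, ha x]
      inv_mem' := fun {a} ha x => by
        change a.symm (algebraMap F L x) = algebraMap F L x
        rw [AlgEquiv.symm_apply_eq]
        exact (ha x).symm }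
  have hinv : ∀ h ∈ H, T.map (h : L →+* L) z = z := by
    intro h hh
    rw [← sub_eq_zero]
    refine hT.inj_reg _ fun τ => ?_
    rw [map_sub, hT.map_reg, hz, hz, sub_eq_zero]
    congr 1
    ext y
    exact congrArg τ (hh y)
  obtain ⟨u', hu'⟩ := hT.descent H z hinv
  have hmem : ∀ y : IntermediateField.fixedField H, (y : L) ∈ (algebraMap F L).range := by
    intro y
    have h1 : (y : L) ∈ Set.range (algebraMap F L) := by
      rw [IsGalois.mem_range_algebraMap_iff_fixed]
      intro g
      have h2 : g.restrictScalars ℚ ∈ H := fun x => g.commutes x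
      exact (IntermediateField.mem_fixedField_iff H (y : L)).mp y.2 _ h2
    exact h1
  have hbij : Function.Bijective (algebraMap F L).rangeRestrict :=
    ⟨fun a b hab => (algebraMap F L).injective (congrArg Subtype.val hab),
      (algebraMap F L).rangeRestrict_surjective⟩
  let r : F ≃+* (algebraMap F L).range := RingEquiv.ofBijective _ hbij
  let e : IntermediateField.fixedField H →+* F :=
    (r.symm : (algebraMap F L).range →+* F).comp
      (RingHom.codRestrict (IntermediateField.fixedField H).val.toRingHom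
        (algebraMap F L).range hmem)
  have he : (algebraMap F L).comp e = (IntermediateField.fixedField H).val.toRingHom := by
    ext y
    have h1 := congrArg Subtype.val (r.apply_symm_apply ⟨(y : L), hmem y⟩)
    exact h1
  have hreg : ∀ σ : F →+* ℂ, T.reg σ (T.map e u') = traceValue n σ α := by
    intro σ
    obtain ⟨τ, rfl⟩ := exists_lift (algebraMap F L) σ
    rw [hT.map_reg, RingHom.comp_assoc, he, ← hT.map_reg, hu', hz]
  refine ⟨T.map e u', hreg, ?_⟩
  have h1 : T.map (algebraMap F L) (T.map e u') = z := by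
    rw [← sub_eq_zero]
    refine hT.inj_reg _ fun τ => ?_
    rw [map_sub, hT.map_reg, hreg, hz, sub_self]
  rw [h1]
  have h2 : z ∈ polySpace T n L := Submodule.sum_mem _ fun g _ => map_isPoly hT _
    ⟨1, one_ne_zero, α, hα, fun σ => by rw [Int.cast_one, one_smul, hx]⟩
  exact h2

/-- the nonvanishing implies the formula -/
lemma weakZagier_of (hT : T.IsKnown' n) {F : Type} [Field F] [NumberField F]
    (h : WeakNonvanishing n F) : WeakZagier n F := by
  classical
  obtain ⟨L, i1, i2, i3, i4, y, hy, hdet⟩ := h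
  refine ⟨L, i1, i2, i3, i4, y, hy, ?_⟩
  obtain ⟨b, hb, hz⟩ := hT.borel F
  choose u hu _ using fun w => exists_trace hT (F := F) (hy w)
  let A : Matrix (Idx n F) (Idx n F) ℚ := Matrix.of fun w j => b.repr (u w) j
  have h1 : (determinant fun w v => traceValue n v.1.embedding (y w)) =
      ((A.det : ℚ) : ℝ) * determinant fun w v => T.reg v.1.embedding (b w) := by
    unfold determinant
    have h2 : ((A.det : ℚ) : ℝ) = (A.map (Rat.castHom ℝ)).det := by
      have h3 := RingHom.map_det (Rat.castHom ℝ) A
      exact h3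
    rw [h2, ← Matrix.det_mul]
    congr 1
    ext w v
    rw [Matrix.mul_apply]
    change traceValue n v.1.embedding (y w) = ∑ j, ((b.repr (u w) j : ℚ) : ℝ) *
      T.reg v.1.embedding (b j)
    rw [← hu]
    conv_lhs => rw [← b.sum_repr (u w)]
    rw [map_sum]
    refine Finset.sum_congr rfl fun j _ => ?_
    rw [map_smul, Rat.smul_def]
  have hA : A.det ≠ 0 := by
    intro h0
    rw [h1, h0, Rat.cast_zero, zero_mul] at hdet
    exact hdet rfl
  refine isMultiple_scale hz A.det hA ?_
  rw [h1]
  ring

/-- all elements are polylogarithmic over a finite extension -/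
lemma potential_of_weak (hT : T.IsKnown' n) {F : Type} [Field F] [NumberField F]
    (h : WeakNonvanishing n F) (x : T.K F) : ∃ (L : Type) (_ : Field L) (_ : NumberField L)
      (f : F →+* L), IsPoly T n (T.map f x) := by
  obtain ⟨L, i1, i2, i3, i4, y, hy, h3⟩ := h
  obtain ⟨b, hb, hz⟩ := hT.borel F
  choose u hu hp using fun w => exists_trace hT (F := F) (hy w)
  have hli : LinearIndependent ℚ u := by
    rw [Fintype.linearIndependent_iff]
    intro c hc
    have h4 : (fun w => (c w : ℝ)) = 0 := by
      refine Matrix.eq_zero_of_vecMul_eq_zero h3 (funext fun v => ?_)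
      have h5 := congrArg (T.reg v.1.embedding) hc
      rw [map_sum, map_zero] at h5
      rw [Pi.zero_apply, ← h5]
      show ∑ w, (c w : ℝ) * traceValue n v.1.embedding (y w) = _
      refine Finset.sum_congr rfl fun w _ => ?_
      rw [map_smul, hu, Rat.smul_def]
    intro w
    have h5 : (c w : ℝ) = 0 := congrFun h4 w
    exact_mod_cast h5
  have hfd : FiniteDimensional ℚ (T.K F) := Module.Finite.of_basis b
  have hcard : Fintype.card (Idx n F) = Module.finrank ℚ (T.K F) :=
    (Module.finrank_eq_card_basis b).symm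
  have htop := hli.span_eq_top_of_card_eq_finrank' hcard
  have hle : Submodule.span ℚ (Set.range u) ≤ (polySpace T n L).comap (T.map (algebraMap F L)) := by
    rw [Submodule.span_le]
    rintro _ ⟨w, rfl⟩
    exact hp w
  have h6 : x ∈ Submodule.span ℚ (Set.range u) := by
    rw [htop]
    exact Submodule.mem_top
  exact ⟨L, i1, i2, algebraMap F L, hle h6⟩

/-- the converse -/
lemma weak_of_potential (hT : T.IsKnown' n) (hn : 3 ≤ n) {F : Type} [Field F] [NumberField F]
    (h : ∀ x : T.K F, ∃ (L : Type) (_ : Field L) (_ : NumberField L) (f : F →+* L),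
      IsPoly T n (T.map f x)) : WeakNonvanishing n F := by
  rw [weak_iff hn]
  obtain ⟨b, hb, hz⟩ := hT.borel F
  intro φ hφ
  set M : Matrix (Idx n F) (Idx n F) ℝ := Matrix.of fun w v => T.reg v.1.embedding (b w) with hM
  have hdet' : M.det ≠ 0 := hb
  obtain ⟨c, hc⟩ : ∃ c : Idx n F → ℝ, ∀ v : Idx n F,
      ∑ w, c w * T.reg v.1.embedding (b w) = φ v.1.embedding := by
    refine ⟨Matrix.vecMul (fun v => φ v.1.embedding) M⁻¹, fun v => ?_⟩
    have h3 : Matrix.vecMul (Matrix.vecMul (fun v : Idx n F => φ v.1.embedding) M⁻¹) M =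
        fun v : Idx n F => φ v.1.embedding := by
      rw [Matrix.vecMul_vecMul, Matrix.nonsing_inv_mul _ (isUnit_iff_ne_zero.2 hdet'),
        Matrix.vecMul_one]
    exact congrFun h3 v
  set ψ : (F →+* ℂ) → ℝ := ∑ w, c w • fun σ => T.reg σ (b w) with hψ
  have hψV : ψ ∈ PVal n F hn := Submodule.sum_mem _ fun w _ => Submodule.smul_mem _ _ (by
    obtain ⟨L, i1, i2, f, N, hN, α, hα, hv⟩ := h (b w)
    refine ⟨L, i1, i2, f, ?_⟩
    have hN' : (N : ℝ) ≠ 0 := by exact_mod_cast hN
    have h1 : pull f (fun σ => T.reg σ (b w)) = (N : ℝ)⁻¹ • fun τ => value n τ α := by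
      funext τ
      change T.reg (τ.comp f) (b w) = (N : ℝ)⁻¹ * value n τ α
      rw [← hv, map_smul, Rat.smul_def, hT.map_reg, Rat.cast_intCast, ← mul_assoc,
        inv_mul_cancel₀ hN', one_mul]
    rw [h1]
    exact Submodule.smul_mem _ _ (vec_mem_Val hα))
  have hψa : ∀ σ, ψ σ = ∑ w, c w * T.reg σ (b w) := by
    intro σ
    rw [hψ, Finset.sum_apply]
    rfl
  have h1 : φ - ψ = 0 := by
    refine eq_zero_of_places (by omega) (Submodule.sub_mem _ hφ (PVal_le hn F hψV)) fun v => ?_
    change φ v.1.embedding - ψ v.1.embedding = 0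
    rw [hψa, hc, sub_self]
  rw [sub_eq_zero.1 h1]
  exact hψV

end

end Pool.Agent.Run7.h508.ZW
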